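import Pool.Agent.Helper35.EAM.Spec

/-!
# EAM, part GEOM
-/

set_option autoImplicit false

namespace Pool.Agent.Helper52.EAM

open Pool.H47EA Pool.Agent.Helper35.EAM

/-- The sites of the slab. -/
def slab (k d : ℕ) (s : Fin k → Bool → ℤ) : Site d :=
  fun i => if h : i.val / 2 < k then s ⟨i.val / 2, h⟩ (decide (i.val % 2 = 1)) else 0

lemma sum_range_two (f : ℕ → ℕ) (n : ℕ) :
    ∑ i ∈ Finset.range (2 * n), f i = ∑ j ∈ Finset.range n, (f (2 * j) + f (2 * j + 1)) := by
  induction n with
  | zero => simp
  | succ n ih =>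
    rw [Finset.sum_range_succ, ← ih, show 2 * (n + 1) = 2 * n + 1 + 1 by ring,
      Finset.sum_range_succ, Finset.sum_range_succ]
    ring

lemma sum_slab (k d : ℕ) (hkd : 2 * k ≤ d) (F : Fin k → Bool → ℕ) :
    ∑ i : Fin d, (if h : i.val / 2 < k then F ⟨i.val / 2, h⟩ (decide (i.val % 2 = 1)) else 0) =
      ∑ c : Fin k, (F c false + F c true) := by
  have h1 : ∑ i : Fin d, (if h : i.val / 2 < k then F ⟨i.val / 2, h⟩ (decide (i.val % 2 = 1)) else 0)
      = ∑ i ∈ Finset.range d,
        (if h : i / 2 < k then F ⟨i / 2, h⟩ (decide (i % 2 = 1)) else 0) :=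
    Fin.sum_univ_eq_sum_range
      (fun i => if h : i / 2 < k then F ⟨i / 2, h⟩ (decide (i % 2 = 1)) else 0) d
  rw [h1]
  have h2 : ∑ i ∈ Finset.range d,
        (if h : i / 2 < k then F ⟨i / 2, h⟩ (decide (i % 2 = 1)) else 0) =
      ∑ i ∈ Finset.range (2 * k),
        (if h : i / 2 < k then F ⟨i / 2, h⟩ (decide (i % 2 = 1)) else 0) := by
    symm
    apply Finset.sum_subset
    · intro i hi
      rw [Finset.mem_range] at hi ⊢
      omega
    · intro i _ hi
      rw [Finset.mem_range] at hi
      rw [dif_neg (by omega)]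
  rw [h2, sum_range_two, Finset.sum_range]
  apply Finset.sum_congr rfl
  intro c _
  have hc := c.2
  have e1 : 2 * (c : ℕ) / 2 = c := by omega
  have e2 : (2 * (c : ℕ) + 1) / 2 = c := by omega
  have e3 : 2 * (c : ℕ) % 2 = 0 := by omega
  have e4 : (2 * (c : ℕ) + 1) % 2 = 1 := by omega
  congr 1
  · rw [dif_pos (by omega)]
    have e5 : (⟨2 * (c : ℕ) / 2, by omega⟩ : Fin k) = c := Fin.ext e1
    rw [e5]
    simp [e3]
  · rw [dif_pos (by omega)]
    have e5 : (⟨(2 * (c : ℕ) + 1) / 2, by omega⟩ : Fin k) = c := Fin.ext e2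
    rw [e5]
    simp [e4]

lemma dist_slab (k d : ℕ) (hkd : 2 * k ≤ d) (s t : Fin k → Bool → ℤ) :
    dist1 (slab k d s) (slab k d t) =
      ∑ c : Fin k, ((s c false - t c false).natAbs + (s c true - t c true).natAbs) := by
  rw [← sum_slab k d hkd (fun c b => (s c b - t c b).natAbs)]
  unfold dist1
  apply Finset.sum_congr rfl
  intro i _
  unfold slab
  split_ifs <;> simp

lemma slab_apply (k d : ℕ) (hkd : 2 * k ≤ d) (s : Fin k → Bool → ℤ) (c : Fin k) (b : Bool) :
    slab k d s ⟨2 * c.val + b.toNat, by
      have := c.2; have := Bool.toNat_le b; omega⟩ = s c b := by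
  have hc := c.2
  have e : (2 * c.val + b.toNat) / 2 = c.val := by
    have := Bool.toNat_le b; omega
  unfold slab
  rw [dif_pos (by show (2 * c.val + b.toNat) / 2 < k; omega)]
  have e5 : (⟨(2 * c.val + b.toNat) / 2, by omega⟩ : Fin k) = c := Fin.ext e
  have e6 : decide ((2 * c.val + b.toNat) % 2 = 1) = b := by
    cases b
    · simp
    · simp
  show s ⟨(2 * c.val + b.toNat) / 2, _⟩ (decide ((2 * c.val + b.toNat) % 2 = 1)) = s c b
  rw [e5, e6]

lemma slab_inj (k d : ℕ) (hkd : 2 * k ≤ d) (s t : Fin k → Bool → ℤ)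
    (h : slab k d s = slab k d t) (c : Fin k) (b : Bool) : s c b = t c b := by
  rw [← slab_apply k d hkd s c b, ← slab_apply k d hkd t c b, h]

lemma nd_slab (k d : ℕ) (x : Fin k → ℤ) : nd k d x = slab k d (fun c _ => x c) := rfl

/-- the shift of an intermediate site -/
def sh {k : ℕ} (c : Fin k) (τ : Bool) (c' : Fin k) (b : Bool) : ℤ :=
  if c' = c ∧ b = τ then 1 else 0

lemma im_slab (k d : ℕ) (τ : Bool) (x : Fin k → ℤ) (c : Fin k) :
    im k d τ x c = slab k d (fun c' b => x c' + sh c τ c' b) := by
  funext i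
  have hc := c.2
  by_cases h1 : i.val / 2 < k
  · have key : (i.val = 2 * c.val + τ.toNat) ↔
        ((⟨i.val / 2, h1⟩ : Fin k) = c ∧ decide (i.val % 2 = 1) = τ) := by
      rw [Fin.ext_iff]
      cases τ
      · simp
        omega
      · simp
        omega
    unfold im nd slab sh
    rw [dif_pos h1, dif_pos h1]
    simp only [key]
  · have hτ := Bool.toNat_le τ
    unfold im nd slab
    rw [dif_neg h1, dif_neg h1, if_neg (by omega), add_zero]

lemma sh_ne {k : ℕ} (c : Fin k) (τ : Bool) (c' : Fin k) (b : Bool) (h : c' ≠ c) :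
    sh c τ c' b = 0 := by
  unfold sh
  rw [if_neg (fun h' => h h'.1)]

lemma sh_self {k : ℕ} (c : Fin k) (τ : Bool) : sh c τ c τ = 1 := by
  simp [sh]

lemma sh_not {k : ℕ} (c : Fin k) (τ : Bool) : sh c τ c (!τ) = 0 := by
  simp [sh]

lemma sh_nonneg {k : ℕ} (c : Fin k) (τ : Bool) (c' : Fin k) (b : Bool) : 0 ≤ sh c τ c' b := by
  unfold sh
  split_ifs <;> norm_num

/-- the two terms of the distance at the coordinate of the shift -/
lemma term_self {k : ℕ} (c : Fin k) (τ : Bool) (z : ℤ) :
    (z + sh c τ c false).natAbs + (z + sh c τ c true).natAbs = z.natAbs + (z + 1).natAbs := by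
  cases τ
  · have h1 := sh_self c false
    have h2 := sh_not c false
    simp only [Bool.not_false] at h2
    rw [h1, h2, add_zero]
    ring
  · have h1 := sh_self c true
    have h2 := sh_not c true
    simp only [Bool.not_true] at h2
    rw [h1, h2, add_zero]

lemma dist_im_nd (k d : ℕ) (hkd : 2 * k ≤ d) (τ : Bool) (x y : Fin k → ℤ) (c : Fin k) :
    dist1 (im k d τ x c) (nd k d y) =
      (x c - y c).natAbs + (x c - y c + 1).natAbs +
        ∑ c' ∈ Finset.univ.erase c, 2 * (x c' - y c').natAbs := by
  rw [im_slab, nd_slab, dist_slab k d hkd, ← Finset.add_sum_erase _ _ (Finset.mem_univ c)]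
  congr 1
  · rw [← term_self c τ (x c - y c)]
    congr 2 <;> ring
  · apply Finset.sum_congr rfl
    intro c' hc'
    have h := (Finset.mem_erase.1 hc').1
    rw [sh_ne c τ c' false h, sh_ne c τ c' true h]
    simp only [add_zero]
    ring

/-- parity of the distance -/
lemma dist_parity {k : ℕ} (u v : Fin k → ℤ) :
    ((∑ c : Fin k, ((u c).natAbs + (v c).natAbs) : ℕ) : ℤ) % 2 = (∑ c, (u c + v c)) % 2 := by
  have h : ∀ s : Finset (Fin k), ((∑ c ∈ s, ((u c).natAbs + (v c).natAbs) : ℕ) : ℤ) % 2 =
      (∑ c ∈ s, (u c + v c)) % 2 := by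
    intro s
    classical
    induction s using Finset.induction_on with
    | empty => simp
    | insert a s ha ih =>
      rw [Finset.sum_insert ha, Finset.sum_insert ha]
      omega
  exact h _

lemma sum_sh {k : ℕ} (c : Fin k) (τ : Bool) :
    ∑ c', (sh c τ c' false + sh c τ c' true) = 1 := by
  rw [Finset.sum_eq_single c]
  · cases τ <;> simp [sh]
  · intro c' _ h
    rw [sh_ne c τ c' false h, sh_ne c τ c' true h, add_zero]
  · intro h
    exact absurd (Finset.mem_univ c) h

theorem t_GEOM : S_GEOM := by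
  intro k d hkd
  refine ⟨?_, ?_, ?_, ?_, ?_, ?_, ?_, ?_⟩
  · intro x y h
    funext c
    rw [nd_slab, nd_slab] at h
    exact slab_inj k d hkd _ _ h c false
  · intro x y h
    rw [nd_slab, nd_slab, dist_slab k d hkd] at h
    have h1 : ∑ c : Fin k, ((x c - y c).natAbs + (x c - y c).natAbs) =
        2 * ∑ c : Fin k, (x c - y c).natAbs := by
      rw [Finset.mul_sum]
      apply Finset.sum_congr rfl
      intro c _
      ring
    rw [h1] at h
    omega
  · intro τ x y c
    rw [dist_im_nd k d hkd]
    constructor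
    · intro h
      have h1 : ∑ c' ∈ Finset.univ.erase c, 2 * (x c' - y c').natAbs = 0 := by
        rw [← Finset.mul_sum] at h ⊢
        omega
      have h2 : ∀ c', c' ≠ c → x c' = y c' := by
        intro c' hc'
        rw [Finset.sum_eq_zero_iff] at h1
        have := h1 c' (Finset.mem_erase.2 ⟨hc', Finset.mem_univ _⟩)
        omega
      rw [h1] at h
      have h3 : y c = x c ∨ y c = x c + 1 := by omega
      rcases h3 with h3 | h3
      · left
        funext c'
        by_cases hc' : c' = c
        · rw [hc', h3]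
        · exact (h2 c' hc').symm
      · right
        funext c'
        by_cases hc' : c' = c
        · rw [hc', h3]
          simp [up]
        · rw [← h2 c' hc']
          simp [up, Pi.single_eq_of_ne hc']
    · rintro (rfl | rfl)
      · simp
      · have h1 : ∑ c' ∈ Finset.univ.erase c, 2 * (x c' - up x c c').natAbs = 0 := by
          apply Finset.sum_eq_zero
          intro c' hc'
          have h := (Finset.mem_erase.1 hc').1
          simp [up, Pi.single_eq_of_ne h]
        rw [h1]
        simp [up]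
  · intro τ τ' x y c c' h
    rw [im_slab, im_slab, dist_slab k d hkd] at h
    have h1 := dist_parity (fun e => x e + sh c τ e false - (y e + sh c' τ' e false))
      (fun e => x e + sh c τ e true - (y e + sh c' τ' e true))
    rw [h] at h1
    have h2 : ∑ e, ((x e + sh c τ e false - (y e + sh c' τ' e false)) +
        (x e + sh c τ e true - (y e + sh c' τ' e true))) =
        2 * ∑ e, (x e - y e) + ∑ e, (sh c τ e false + sh c τ e true) -
          ∑ e, (sh c' τ' e false + sh c' τ' e true) := by
      rw [Finset.mul_sum, ← Finset.sum_add_distrib, ← Finset.sum_sub_distrib]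
      apply Finset.sum_congr rfl
      intro e _
      ring
    rw [h2, sum_sh, sum_sh] at h1
    push_cast at h1
    omega
  · intro τ τ' x y c c' h
    rw [im_slab, im_slab] at h
    have h1 := slab_inj k d hkd _ _ h
    have h2 := h1 c τ
    have h3 := h1 c (!τ)
    rw [sh_self] at h2
    rw [sh_not] at h3
    have h4 := sh_nonneg c' τ' c (!τ)
    have h5 : sh c' τ' c τ ≠ 0 := by
      intro h5
      rw [h5] at h2
      omega
    have h6 : c = c' ∧ τ = τ' := by
      by_contra h6
      apply h5
      unfold sh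
      rw [if_neg h6]
    obtain ⟨rfl, rfl⟩ := h6
    refine ⟨rfl, ?_, rfl⟩
    funext c''
    have := h1 c'' τ
    linarith
  · intro τ x y c h
    rw [im_slab, nd_slab] at h
    have h1 := slab_inj k d hkd _ _ h
    have h2 := h1 c τ
    have h3 := h1 c (!τ)
    rw [sh_self] at h2
    rw [sh_not] at h3
    omega
  · intro τ x c i hi
    have hc := c.2
    have hτ := Bool.toNat_le τ
    constructor
    · unfold nd
      rw [dif_neg (by omega)]
    · unfold im nd
      rw [dif_neg (by omega), if_neg (by omega), add_zero]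
  · intro x
    have h0 : (0 : Site d) = nd k d 0 := by
      funext i
      unfold nd
      split_ifs <;> rfl
    rw [h0, nd_slab, nd_slab, dist_slab k d hkd]
    push_cast
    rw [Finset.mul_sum]
    apply Finset.sum_congr rfl
    intro c _
    simp only [Pi.zero_apply, zero_sub, abs_neg]
    ring

end Pool.Agent.Helper52.EAM
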