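import Pool.Agent.Helper52.EAM.GEOM

/-!
# EAM, part PROB
-/

set_option autoImplicit false

open MeasureTheory

namespace Pool.Agent.Helper52.EAM

open Pool.H47EA Pool.Agent.Helper35.EAM

/-- the fair coin -/
noncomputable def coin : Measure Bool := (PMF.uniformOfFintype Bool).toMeasure

instance : IsProbabilityMeasure coin := by unfold coin; infer_instance

lemma coin_not : coin.map (fun b => !b) = coin := by
  apply Measure.ext_of_singleton
  intro b
  rw [Measure.map_apply (measurable_of_finite _) (measurableSet_singleton b)]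
  have h1 : (fun b : Bool => !b) ⁻¹' {b} = {!b} := by
    ext c
    cases b <;> cases c <;> simp
  rw [h1]
  unfold coin
  rw [PMF.toMeasure_apply_singleton _ _ (measurableSet_singleton _),
    PMF.toMeasure_apply_singleton _ _ (measurableSet_singleton _)]
  simp

section

variable {Λ : Type}

/-- the law of independent fair coins -/
noncomputable def law (Λ : Type) : Measure (Λ → Bool) := Measure.infinitePi fun _ => coin

instance : IsProbabilityMeasure (law Λ) := by unfold law; infer_instance

open Classical in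
lemma flip_map (a : Λ) :
    (law Λ).map (fun J x => (if x = a then (fun b : Bool => !b) else id) (J x)) = law Λ := by
  unfold law
  rw [Measure.infinitePi_map_pi (μ := fun _ : Λ => coin)
    (f := fun x => (if x = a then (fun b : Bool => !b) else id)) (fun x => measurable_of_finite _)]
  congr 1
  funext x
  split_ifs
  · exact coin_not
  · exact Measure.map_id

/-- the event that `J (f i) = J (g i)` for all `i ∈ S` -/
def ev {ι : Type} (f g : ι → Λ) (S : Finset ι) : Set (Λ → Bool) := {J | ∀ i ∈ S, J (f i) = J (g i)}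

lemma ev_meas {ι : Type} (f g : ι → Λ) (S : Finset ι) : MeasurableSet (ev f g S) := by
  have : ev f g S = ⋂ i ∈ S, {J : Λ → Bool | J (f i) = J (g i)} := by
    ext J; simp [ev]
  rw [this]
  apply Finset.measurableSet_biInter
  intro i _
  exact measurableSet_eq_fun (measurable_pi_apply _) (measurable_pi_apply _)

open Classical in
lemma ev_prob {ι : Type} (f g : ι → Λ) (S : Finset ι)
    (h1 : ∀ i ∈ S, f i ≠ g i) (h2 : ∀ i ∈ S, ∀ j ∈ S, i ≠ j → f i ≠ f j ∧ f i ≠ g j) :
    (law Λ).real (ev f g S) = (1 / 2) ^ S.card := by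
  induction S using Finset.induction_on with
  | empty =>
    have : ev f g ∅ = Set.univ := by ext J; simp [ev]
    rw [this]
    simp
  | insert i S hi ih =>
    have ih' := ih (fun j hj => h1 j (Finset.mem_insert_of_mem hj))
      (fun j hj l hl => h2 j (Finset.mem_insert_of_mem hj) l (Finset.mem_insert_of_mem hl))
    have hE : MeasurableSet {J : Λ → Bool | J (f i) = J (g i)} :=
      measurableSet_eq_fun (measurable_pi_apply _) (measurable_pi_apply _)
    have e1 : ev f g (insert i S) = ev f g S ∩ {J | J (f i) = J (g i)} := by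
      ext J
      simp only [ev, Finset.forall_mem_insert, Set.mem_inter_iff]
      exact and_comm
    have e2 : (law Λ).real (ev f g S ∩ {J | J (f i) = J (g i)}) =
        (law Λ).real (ev f g S \ {J | J (f i) = J (g i)}) := by
      have hm : Measurable (fun (J : Λ → Bool) x =>
          (if x = f i then (fun b : Bool => !b) else id) (J x)) := by
        apply measurable_pi_lambda
        intro x
        exact (measurable_of_finite _).comp (measurable_pi_apply x)
      have hpre : (fun (J : Λ → Bool) x =>
          (if x = f i then (fun b : Bool => !b) else id) (J x)) ⁻¹'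
            (ev f g S ∩ {J | J (f i) = J (g i)}) = ev f g S \ {J | J (f i) = J (g i)} := by
        ext J
        have h3 : ∀ x, x ≠ f i → (if x = f i then (fun b : Bool => !b) else id) (J x) = J x := by
          intro x hx
          rw [if_neg hx]; rfl
        have h4 : (if True then (fun b : Bool => !b) else id) (J (f i)) = !(J (f i)) := by
          rw [if_pos trivial]
        have h5 := h1 i (Finset.mem_insert_self _ _)
        simp only [Set.mem_preimage, Set.mem_inter_iff, Set.mem_sdiff, ev, Set.mem_ofPred_eq]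
        rw [h3 (g i) h5.symm, h4]
        have h6 : (∀ j ∈ S, (if f j = f i then (fun b : Bool => !b) else id) (J (f j)) =
            (if g j = f i then (fun b : Bool => !b) else id) (J (g j))) ↔
            ∀ j ∈ S, J (f j) = J (g j) := by
          apply forall₂_congr
          intro j hj
          have hij : i ≠ j := fun h => hi (h ▸ hj)
          have h7 := h2 i (Finset.mem_insert_self _ _) j (Finset.mem_insert_of_mem hj) hij
          rw [h3 (f j) h7.1.symm, h3 (g j) h7.2.symm]
        rw [h6]
        apply and_congr_right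
        intro _
        cases J (f i) <;> cases J (g i) <;> simp
      rw [← hpre, ← map_measureReal_apply hm ((ev_meas f g S).inter hE), flip_map]
    have e3 : (law Λ).real (ev f g S ∩ {J | J (f i) = J (g i)}) +
        (law Λ).real (ev f g S \ {J | J (f i) = J (g i)}) = (law Λ).real (ev f g S) :=
      measureReal_inter_add_sdiff hE
    rw [e1, Finset.card_insert_of_notMem hi, pow_succ, ← ih', ← e3, ← e2]
    ring

end

lemma sg_inj {a b : Bool} (h : sg a = sg b) : a = b := by
  cases a <;> cases b <;> simp [sg] at h ⊢ <;> norm_num at h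

lemma Jc_of_adj {d : ℕ} (J : Coupling d) (x y : Site d) (h : dist1 x y = 1) :
    Jc J x y = sg (J ⟨s(x, y), h⟩) := by
  unfold Jc
  rw [dif_pos (show (lat d).Adj x y from h)]

/-- first edge -/
def e0 (k d : ℕ) (hkd : 2 * k ≤ d) (i : Bool × Bond k) : (lat d).edgeSet :=
  ⟨s(im k d i.1 i.2.1 i.2.2, nd k d i.2.1),
    ((t_GEOM k d hkd).2.2.1 i.1 i.2.1 i.2.1 i.2.2).2 (Or.inl rfl)⟩

/-- second edge -/
def e1 (k d : ℕ) (hkd : 2 * k ≤ d) (i : Bool × Bond k) : (lat d).edgeSet :=
  ⟨s(im k d i.1 i.2.1 i.2.2, nd k d (up i.2.1 i.2.2)),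
    ((t_GEOM k d hkd).2.2.1 i.1 i.2.1 (up i.2.1 i.2.2) i.2.2).2 (Or.inr rfl)⟩

lemma good_iff (k d : ℕ) (hkd : 2 * k ≤ d) (J : Coupling d) (b : Bond k) :
    Pool.Agent.Helper35.EAM.Good J b ↔ ∀ τ : Bool, J (e0 k d hkd (τ, b)) = J (e1 k d hkd (τ, b)) := by
  unfold Pool.Agent.Helper35.EAM.Good
  apply forall_congr'
  intro τ
  rw [Jc_of_adj J _ _ (((t_GEOM k d hkd).2.2.1 τ b.1 b.1 b.2).2 (Or.inl rfl)),
    Jc_of_adj J _ _ (((t_GEOM k d hkd).2.2.1 τ b.1 (up b.1 b.2) b.2).2 (Or.inr rfl))]
  constructor
  · intro h
    exact sg_inj h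
  · intro h
    exact congrArg sg h

lemma up_ne {k : ℕ} (x : Fin k → ℤ) (c : Fin k) : up x c ≠ x := by
  intro h
  have := congrFun h c
  simp [up] at this

lemma edge_eq {d : ℕ} {a b a' b' : Site d} (h : s(a, b) = s(a', b')) (hne : b ≠ a') :
    a = a' ∧ b = b' := by
  rw [Sym2.eq_iff] at h
  rcases h with h | h
  · exact h
  · exact absurd h.2 hne

theorem t_PROB : S_PROB := by
  classical
  intro k d hkd B
  have hG := t_GEOM k d hkd
  have hset : {J : Coupling d | ∀ b ∈ B, Pool.Agent.Helper35.EAM.Good J b} =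
      ev (e0 k d hkd) (e1 k d hkd) (Finset.univ ×ˢ B) := by
    ext J
    simp only [Set.mem_ofPred_eq, ev, Finset.mem_product, Finset.mem_univ, true_and]
    constructor
    · rintro h ⟨τ, b⟩ hb
      exact (good_iff k d hkd J b).1 (h b hb) τ
    · intro h b hb
      exact (good_iff k d hkd J b).2 (fun τ => h (τ, b) hb)
  have hmeas : MeasurableSet {J : Coupling d | ∀ b ∈ B, Pool.Agent.Helper35.EAM.Good J b} := by
    rw [hset]; exact ev_meas _ _ _
  have hfun : (fun J : Coupling d => if ∀ b ∈ B, Pool.Agent.Helper35.EAM.Good J b then (1 : ℝ) else 0) =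
      {J : Coupling d | ∀ b ∈ B, Pool.Agent.Helper35.EAM.Good J b}.indicator (fun _ => (1 : ℝ)) := by
    funext J
    simp only [Set.indicator_apply, Set.mem_ofPred_eq]
  constructor
  · have := (integrable_const (μ := couplingLaw d) (1 : ℝ)).indicator hmeas
    rw [← hfun] at this
    convert this using 2
  · have h1 : ∫ J, (if ∀ b ∈ B, Pool.Agent.Helper35.EAM.Good J b then (1 : ℝ) else 0) ∂(couplingLaw d) =
        (couplingLaw d).real {J : Coupling d | ∀ b ∈ B, Pool.Agent.Helper35.EAM.Good J b} := by
      rw [hfun, integral_indicator hmeas]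
      simp
    have h2 : (couplingLaw d).real {J : Coupling d | ∀ b ∈ B, Pool.Agent.Helper35.EAM.Good J b} =
        (law ((lat d).edgeSet)).real (ev (e0 k d hkd) (e1 k d hkd) (Finset.univ ×ˢ B)) := by
      rw [hset]
      rfl
    rw [h1, h2, ev_prob]
    · rw [Finset.card_product]
      simp only [Finset.card_univ, Fintype.card_bool]
      rw [pow_mul]
      norm_num
    · rintro ⟨τ, x, c⟩ _ h
      have h3 : s(im k d τ x c, nd k d x) = s(im k d τ x c, nd k d (up x c)) :=
        congrArg Subtype.val h
      have h4 := edge_eq h3 (hG.2.2.2.2.2.1 τ x x c)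
      exact up_ne x c (hG.1 _ _ h4.2).symm
    · rintro ⟨τ, x, c⟩ _ ⟨τ', x', c'⟩ _ hne
      constructor
      · intro h
        have h3 : s(im k d τ x c, nd k d x) = s(im k d τ' x' c', nd k d x') :=
          congrArg Subtype.val h
        have h4 := edge_eq h3 (hG.2.2.2.2.2.1 τ' x' x c')
        obtain ⟨h5, h6, h7⟩ := hG.2.2.2.2.1 _ _ _ _ _ _ h4.1
        exact hne (by rw [h5, h6, h7])
      · intro h
        have h3 : s(im k d τ x c, nd k d x) = s(im k d τ' x' c', nd k d (up x' c')) :=
          congrArg Subtype.val h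
        have h4 := edge_eq h3 (hG.2.2.2.2.2.1 τ' x' x c')
        obtain ⟨h5, h6, h7⟩ := hG.2.2.2.2.1 _ _ _ _ _ _ h4.1
        exact hne (by rw [h5, h6, h7])

end Pool.Agent.Helper52.EAM
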